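import Pool.Agent.H705.FP.Stm

/-! # FP UPA: the upper bound for the local averages (deterministic)

helper117; the first lemma is adapted from `Pool/Agent/H236/RO/T_UP.lean`. -/

set_option autoImplicit false

namespace Pool.Agent.H117.FP

open MeasureTheory ProbabilityTheory Filter Topology Finset
open Pool.Agent.H705.FP
open Pool.Agent.H705.RO (R part pe)

/-- the number of the block -/
noncomputable def Jk (q : ℝ) (k : ℕ) : ℕ := ⌈q * Real.log k / Real.log 2⌉₊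

/-- small blocks: `(A + 2) J_k + 2 ≤ k` -/
theorem Jk_small (q : ℝ) (hq : 1 < q) (B : ℕ) :
    ∀ᶠ k : ℕ in atTop, B * Jk q k + 2 ≤ k := by
  have hl2 : 0 < Real.log 2 := Real.log_pos (by norm_num)
  have hq0 : 0 < q := by linarith
  have hB0 : (0 : ℝ) < (B : ℝ) + 1 := by positivity
  have hc : 0 < Real.log 2 / (2 * q * ((B : ℝ) + 1)) := by positivity
  have h3 : ∀ᶠ x : ℝ in atTop, ‖Real.log x‖ ≤ Real.log 2 / (2 * q * ((B : ℝ) + 1)) * ‖id x‖ :=
    Real.isLittleO_log_id_atTop.bound hc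
  have h4 := tendsto_natCast_atTop_atTop (R := ℝ) |>.eventually h3
  filter_upwards [h4, eventually_ge_atTop (2 * B + 4), eventually_ge_atTop 1] with k h4 hk2 hk1
  have hk2' : 2 * (B : ℝ) + 4 ≤ k := by exact_mod_cast hk2
  have hk0 : (0:ℝ) ≤ k := Nat.cast_nonneg k
  have hk1' : (1:ℝ) ≤ k := by exact_mod_cast hk1
  have hlogk0 : 0 ≤ Real.log k := Real.log_nonneg hk1'
  simp only [id, Real.norm_eq_abs, abs_of_nonneg hk0] at h4
  have h5 : Real.log k ≤ Real.log 2 / (2 * q * ((B : ℝ) + 1)) * k := (le_abs_self _).trans h4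
  have h6 : q * Real.log k / Real.log 2 ≤ k / (2 * ((B : ℝ) + 1)) := by
    rw [div_le_iff₀ hl2]
    calc q * Real.log k ≤ q * (Real.log 2 / (2 * q * ((B : ℝ) + 1)) * k) :=
          mul_le_mul_of_nonneg_left h5 hq0.le
      _ = k / (2 * ((B : ℝ) + 1)) * Real.log 2 := by field_simp
  have h7 : (Jk q k : ℝ) ≤ k / (2 * ((B : ℝ) + 1)) + 1 := by
    have := (Nat.ceil_lt_add_one (a := q * Real.log k / Real.log 2) (by positivity)).le
    unfold Jk
    linarith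
  have h8 : (B : ℝ) * (Jk q k : ℝ) ≤ k / 2 + B := by
    calc (B : ℝ) * (Jk q k : ℝ) ≤ B * (k / (2 * ((B : ℝ) + 1)) + 1) :=
          mul_le_mul_of_nonneg_left h7 (Nat.cast_nonneg _)
      _ = (B / ((B : ℝ) + 1)) * (k / 2) + B := by field_simp
      _ ≤ 1 * (k / 2) + B := by
          have h9 : (B : ℝ) / ((B : ℝ) + 1) ≤ 1 := by
            rw [div_le_one hB0]
            linarith
          have := mul_le_mul_of_nonneg_right h9 (show 0 ≤ (k : ℝ) / 2 by positivity)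
          linarith
      _ = _ := by ring
  have h9 : (B : ℝ) * (Jk q k : ℝ) + 2 ≤ k := by linarith
  exact_mod_cast h9

lemma stage (W : ℕ → ℝ → ℝ) (a : ℕ → ℝ) (A : ℕ) (κ b q : ℝ) (m : ℕ) (K : ℝ) (hκ : 0 < κ)
    (hb : 0 ≤ b) (hq : 1 < q) (hm : 1 ≤ q * pe m)
    (hK : ∀ J k : ℕ, ∀ t : ℝ, 0 ≤ t → t ≤ 2 ^ k → ∀ M M' : ℕ, 2 ^ J ≤ M → M ≤ M' →
      (M' : ℝ) ^ (A + 2) ≤ t →
      |∑ n ∈ Ico M M', W n t| ≤ K * (2 : ℝ) ^ (-(pe m * J / 2)) * Real.sqrt ((J : ℝ) + k + 1))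
    (hR : ∀ N t, |part W N t| ≤ R a N)
    (hev : ∀ᶠ N : ℕ in atTop, R a N ≤ b * Real.log N ^ κ) :
    ∀ᶠ k : ℕ in atTop, ∀ t : ℝ, 0 ≤ t → t ≤ 2 ^ k → ∀ N : ℕ, 2 ^ Jk q k ≤ N →
      (N : ℝ) ^ (A + 2) ≤ t →
      |part W N t| ≤ b * (q * Real.log k + 1) ^ κ + 2 * |K| := by
  have hl2 : 0 < Real.log 2 := Real.log_pos (by norm_num)
  have hq0 : 0 < q := by linarith
  have hlogk : Tendsto (fun k : ℕ => Real.log (k : ℝ)) atTop atTop :=
    Real.tendsto_log_atTop.comp tendsto_natCast_atTop_atTop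
  have hJ : Tendsto (fun k : ℕ => Jk q k) atTop atTop := by
    refine tendsto_nat_ceil_atTop.comp ?_
    exact Tendsto.atTop_div_const hl2 (Tendsto.const_mul_atTop hq0 hlogk)
  have h2J : Tendsto (fun k : ℕ => 2 ^ Jk q k) atTop (atTop : Filter ℕ) :=
    (tendsto_pow_atTop_atTop_of_one_lt (by norm_num : (1:ℕ) < 2)).comp hJ
  have h1 := h2J.eventually hev
  have h2 := Jk_small q hq 1
  filter_upwards [h1, h2, eventually_ge_atTop 1] with k h1 h2 hk1 t ht0 ht N hN1 hN2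
  obtain ⟨J, hJdef⟩ : ∃ J : ℕ, J = Jk q k := ⟨_, rfl⟩
  rw [← hJdef] at h1 h2 hN1
  have hkpos : (0:ℝ) < k := by exact_mod_cast hk1
  have hk1' : (1:ℝ) ≤ k := by exact_mod_cast hk1
  have hlogk0 : 0 ≤ Real.log k := Real.log_nonneg hk1'
  have hJle : (J : ℝ) ≤ q * Real.log k / Real.log 2 + 1 := by
    rw [hJdef]
    exact (Nat.ceil_lt_add_one (by positivity)).le
  have hJge : q * Real.log k / Real.log 2 ≤ J := by
    rw [hJdef]
    exact Nat.le_ceil _
  have hJk : (J : ℝ) + 2 ≤ k := by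
    have : J + 2 ≤ k := by omega
    exact_mod_cast this
  have hmain := hK J k t ht0 ht (2 ^ J) N le_rfl hN1 hN2
  have hpart := hR (2 ^ J) t
  have hR1 : R a (2 ^ J) ≤ b * (q * Real.log k + 1) ^ κ := by
    refine h1.trans ?_
    refine mul_le_mul_of_nonneg_left ?_ hb
    refine Real.rpow_le_rpow ?_ ?_ hκ.le
    · exact Real.log_natCast_nonneg _
    · push_cast
      rw [Real.log_pow]
      have h3 := mul_le_mul_of_nonneg_right hJle hl2.le
      have h4 : (q * Real.log k / Real.log 2 + 1) * Real.log 2 = q * Real.log k + Real.log 2 := by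
        field_simp
      have h5 : Real.log 2 ≤ 1 := by
        have := Real.log_two_lt_d9
        linarith
      linarith
  have hpe : 0 ≤ pe m := by
    by_contra hneg
    push Not at hneg
    have := mul_neg_of_pos_of_neg hq0 hneg
    linarith
  have hpow : (2:ℝ) ^ (-(pe m * J / 2)) ≤ (k:ℝ) ^ (-(1/2) : ℝ) := by
    rw [Real.rpow_def_of_pos (by norm_num : (0:ℝ) < 2), Real.rpow_def_of_pos hkpos]
    apply Real.exp_le_exp.mpr
    have h5 : q * Real.log k ≤ J * Real.log 2 := by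
      rwa [div_le_iff₀ hl2] at hJge
    have h6 : pe m * (q * Real.log k) ≤ pe m * (J * Real.log 2) := mul_le_mul_of_nonneg_left h5 hpe
    have h7 : 1 * Real.log k ≤ (q * pe m) * Real.log k := mul_le_mul_of_nonneg_right hm hlogk0
    have h8 : Real.log 2 * -(pe m * J / 2) = -(pe m * (J * Real.log 2)) / 2 := by ring
    have h9 : pe m * (q * Real.log k) = (q * pe m) * Real.log k := by ring
    rw [h8]
    linarith
  have hsq : Real.sqrt ((J:ℝ) + k + 1) ≤ 2 * Real.sqrt k := by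
    rw [Real.sqrt_le_left (by positivity), mul_pow, Real.sq_sqrt hkpos.le]
    linarith
  have hprod : (2:ℝ) ^ (-(pe m * J / 2)) * Real.sqrt ((J:ℝ) + k + 1) ≤ 2 := by
    calc (2:ℝ) ^ (-(pe m * J / 2)) * Real.sqrt ((J:ℝ) + k + 1)
        ≤ (k:ℝ) ^ (-(1/2) : ℝ) * (2 * Real.sqrt k) :=
          mul_le_mul hpow hsq (Real.sqrt_nonneg _) (Real.rpow_nonneg hkpos.le _)
      _ = 2 := by
        rw [Real.sqrt_eq_rpow, mul_left_comm, ← Real.rpow_add hkpos]
        norm_num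
  have hK2 : K * (2:ℝ) ^ (-(pe m * J / 2)) * Real.sqrt ((J:ℝ) + k + 1) ≤ 2 * |K| := by
    have hnn : 0 ≤ (2:ℝ) ^ (-(pe m * J / 2)) * Real.sqrt ((J:ℝ) + k + 1) := by positivity
    calc K * (2:ℝ) ^ (-(pe m * J / 2)) * Real.sqrt ((J:ℝ) + k + 1)
        = K * ((2:ℝ) ^ (-(pe m * J / 2)) * Real.sqrt ((J:ℝ) + k + 1)) := by ring
      _ ≤ |K| * ((2:ℝ) ^ (-(pe m * J / 2)) * Real.sqrt ((J:ℝ) + k + 1)) :=
          mul_le_mul_of_nonneg_right (le_abs_self K) hnn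
      _ ≤ |K| * 2 := mul_le_mul_of_nonneg_left hprod (abs_nonneg K)
      _ = 2 * |K| := by ring
  have hsplit : part W N t = part W (2 ^ J) t + ∑ n ∈ Ico (2 ^ J) N, W n t := by
    unfold part
    exact (Finset.sum_range_add_sum_Ico (fun n => W n t) hN1).symm
  have h8 : |part W N t| ≤ |part W (2 ^ J) t| + |∑ n ∈ Ico (2 ^ J) N, W n t| := by
    rw [hsplit]
    exact abs_add_le _ _
  linarith

/-- the integer part of the root -/
noncomputable def Nt (A : ℕ) (t : ℝ) : ℕ := ⌊t ^ (((A + 2 : ℕ) : ℝ)⁻¹)⌋₊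

theorem Nt_pow (A : ℕ) {t : ℝ} (ht : 0 ≤ t) : ((Nt A t : ℕ) : ℝ) ^ (A + 2) ≤ t := by
  have h1 : ((Nt A t : ℕ) : ℝ) ≤ t ^ (((A + 2 : ℕ) : ℝ)⁻¹) := Nat.floor_le (by positivity)
  calc ((Nt A t : ℕ) : ℝ) ^ (A + 2) ≤ (t ^ (((A + 2 : ℕ) : ℝ)⁻¹)) ^ (A + 2) :=
        pow_le_pow_left₀ (Nat.cast_nonneg _) h1 _
    _ = t := Real.rpow_inv_natCast_pow ht (by omega)

theorem le_Nt (A : ℕ) {t : ℝ} (ht : 0 ≤ t) (M : ℕ) (h : (M : ℝ) ^ (A + 2) ≤ t) : M ≤ Nt A t := by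
  unfold Nt
  apply Nat.le_floor
  have h1 : (M : ℝ) = (((M : ℝ) ^ (A + 2))) ^ (((A + 2 : ℕ) : ℝ)⁻¹) :=
    (Real.pow_rpow_inv_natCast (Nat.cast_nonneg _) (by omega)).symm
  rw [h1]
  exact Real.rpow_le_rpow (by positivity) h (by positivity)

/-- the error term -/
theorem err (A m : ℕ) (c C : ℝ) (hC : 0 ≤ C) (hc : c * (2 * A + 4) < pe m) (hp : 0 < pe m) :
    ∀ᶠ t : ℝ in atTop, t ^ c * (C * ((Nt A t : ℕ) : ℝ) ^ (-(pe m / 2))) ≤ 1 := by
  obtain ⟨s, hs⟩ : ∃ s : ℝ, s = pe m / 2 * ((A + 2 : ℕ) : ℝ)⁻¹ - c := ⟨_, rfl⟩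
  have hs0 : 0 < s := by
    have h1 : c < pe m / (2 * A + 4) := by
      rw [lt_div_iff₀ (by positivity)]
      exact hc
    have h2 : pe m / 2 * ((A + 2 : ℕ) : ℝ)⁻¹ = pe m / (2 * A + 4) := by
      push_cast
      field_simp
      ring
    rw [hs, h2]
    linarith
  have hlim : Tendsto (fun t : ℝ => C * (2 : ℝ) ^ (pe m / 2) * t ^ (-s)) atTop
      (𝓝 (C * (2 : ℝ) ^ (pe m / 2) * 0)) := (tendsto_rpow_neg_atTop hs0).const_mul _
  rw [mul_zero] at hlim
  have h3 := hlim.eventually (gt_mem_nhds one_pos)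
  filter_upwards [h3, eventually_ge_atTop (1 : ℝ)] with t h3 ht1
  have ht0 : 0 < t := by linarith
  obtain ⟨x, hx⟩ : ∃ x : ℝ, x = t ^ (((A + 2 : ℕ) : ℝ)⁻¹) := ⟨_, rfl⟩
  have hx1 : 1 ≤ x := by
    rw [hx]
    exact Real.one_le_rpow ht1 (by positivity)
  have hN : x / 2 ≤ ((Nt A t : ℕ) : ℝ) := by
    have h4 : x < ((Nt A t : ℕ) : ℝ) + 1 := by
      rw [hx]
      exact Nat.lt_floor_add_one _
    have h5 : 1 ≤ Nt A t := by
      unfold Nt
      apply Nat.le_floor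
      rw [← hx]
      exact_mod_cast hx1
    have h6 : (1 : ℝ) ≤ ((Nt A t : ℕ) : ℝ) := by exact_mod_cast h5
    linarith
  have h7 : ((Nt A t : ℕ) : ℝ) ^ (-(pe m / 2)) ≤ (x / 2) ^ (-(pe m / 2)) :=
    Real.rpow_le_rpow_of_nonpos (by positivity) hN (by linarith)
  have h8 : (x / 2) ^ (-(pe m / 2)) = (2 : ℝ) ^ (pe m / 2) *
      t ^ (-(pe m / 2 * ((A + 2 : ℕ) : ℝ)⁻¹)) := by
    rw [Real.div_rpow (by positivity) (by norm_num), hx, ← Real.rpow_mul ht0.le,
      Real.rpow_neg (by norm_num : (0 : ℝ) ≤ 2), div_inv_eq_mul, mul_comm]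
    congr 2
    ring
  have h9 : t ^ c * (C * (x / 2) ^ (-(pe m / 2))) = C * (2 : ℝ) ^ (pe m / 2) * t ^ (-s) := by
    rw [h8, hs]
    have : -(pe m / 2 * ((A + 2 : ℕ) : ℝ)⁻¹ - c) = c + -(pe m / 2 * ((A + 2 : ℕ) : ℝ)⁻¹) := by
      ring
    rw [this, Real.rpow_add ht0]
    ring
  calc t ^ c * (C * ((Nt A t : ℕ) : ℝ) ^ (-(pe m / 2)))
      ≤ t ^ c * (C * (x / 2) ^ (-(pe m / 2))) :=
        mul_le_mul_of_nonneg_left (mul_le_mul_of_nonneg_left h7 hC) (by positivity)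
    _ ≤ 1 := by rw [h9]; exact h3.le

theorem T_UPA : P_UPA := by
  intro W F a A κ b b' c hW ha hUT hpart hPrim hc hcA hκ hb hbb' hev
  have hl2 : 0 < Real.log 2 := Real.log_pos (by norm_num)
  have hcc : Tendsto (fun q : ℝ => b * q ^ κ) (𝓝 1) (𝓝 (b * 1 ^ κ)) :=
    (continuousAt_const.mul (Real.continuousAt_rpow_const 1 κ (Or.inl one_ne_zero))).tendsto
  rw [Real.one_rpow, mul_one] at hcc
  obtain ⟨q, hq1, hqb⟩ : ∃ q : ℝ, 1 < q ∧ b * q ^ κ < b' := by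
    have h1 : ∀ᶠ q : ℝ in 𝓝 1, b * q ^ κ < b' := hcc.eventually (gt_mem_nhds hbb')
    have h2 : ∀ᶠ q : ℝ in 𝓝[>] 1, b * q ^ κ < b' := h1.filter_mono nhdsWithin_le_nhds
    obtain ⟨q, hq1, hq2⟩ := (h2.and self_mem_nhdsWithin).exists
    exact ⟨q, hq2, hq1⟩
  have hq0 : 0 < q := by linarith
  obtain ⟨m, hm⟩ : ∃ m : ℕ, 1 ≤ q * pe m := by
    obtain ⟨m, hm⟩ := exists_nat_gt (q / (q - 1))
    refine ⟨m, ?_⟩
    unfold pe
    have hq0 : 0 < q - 1 := by linarith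
    rw [div_lt_iff₀ hq0] at hm
    have hm2 : (0:ℝ) < (m:ℝ) + 2 := by positivity
    have h2 : q * (1 - 1/((m:ℝ)+2)) - 1 = ((q-1) * ((m:ℝ)+2) - q) / ((m:ℝ)+2) := by
      field_simp
      ring
    have h3 : 0 ≤ ((q-1) * ((m:ℝ)+2) - q) / ((m:ℝ)+2) := by
      apply div_nonneg _ hm2.le
      nlinarith
    linarith
  -- the exponent for the error
  obtain ⟨m₁, hm₁⟩ : ∃ m₁ : ℕ, c * (2 * A + 4) < pe m₁ := by
    have hd : 0 < 1 - c * (2 * A + 4) := by linarith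
    obtain ⟨m₁, hm₁⟩ := exists_nat_gt (1 / (1 - c * (2 * A + 4)))
    refine ⟨m₁, ?_⟩
    unfold pe
    have h4 : 1 / ((m₁ : ℝ) + 2) < 1 - c * (2 * A + 4) := by
      rw [div_lt_iff₀ hd] at hm₁
      rw [div_lt_iff₀ (by positivity)]
      nlinarith
    linarith
  have hpe1 : 0 < pe m₁ := by
    have h5 : 0 < c * (2 * A + 4) := by positivity
    linarith
  obtain ⟨K, -, hK⟩ := hUT m
  obtain ⟨C, hC0, hC⟩ := hPrim.2 m₁
  have hst := stage W a A κ b q m K hκ hb hq1 hm hK hpart hev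
  have hJs := Jk_small q hq1 (A + 2)
  have hlog : Tendsto Real.log atTop atTop := Real.tendsto_log_atTop
  have hk : Tendsto (fun t : ℝ => ⌈Real.log t / Real.log 2⌉₊ + 1) atTop atTop :=
    (tendsto_add_atTop_nat 1).comp
      (tendsto_nat_ceil_atTop.comp (Tendsto.atTop_div_const hl2 hlog))
  have h1 := hk.eventually hst
  have h1' := hk.eventually hJs
  have hy : Tendsto (fun t : ℝ => Real.log (Real.log t)) atTop atTop := hlog.comp hlog
  have hfin : ∀ᶠ y : ℝ in atTop, b * (q * (y + 1) + 1) ^ κ + (2 * |K| + 1) ≤ b' * y ^ κ := by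
    have hy1 : Tendsto (fun y : ℝ => b * ((q * (y + 1) + 1) / y) ^ κ + (2 * |K| + 1) / y ^ κ) atTop
        (𝓝 (b * q ^ κ + 0)) := by
      refine Tendsto.add ?_ ?_
      · refine Tendsto.const_mul b ?_
        refine Tendsto.rpow_const ?_ (Or.inl hq0.ne')
        have h5 : Tendsto (fun y : ℝ => q + (q + 1) / y) atTop (𝓝 (q + 0)) :=
          tendsto_const_nhds.add (Tendsto.div_atTop tendsto_const_nhds tendsto_id)
        rw [add_zero] at h5
        refine h5.congr' ?_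
        filter_upwards [eventually_gt_atTop 0] with y hy
        field_simp
        ring
      · exact Tendsto.div_atTop tendsto_const_nhds (tendsto_rpow_atTop hκ)
    rw [add_zero] at hy1
    have h2 := hy1.eventually (gt_mem_nhds hqb)
    filter_upwards [h2, eventually_gt_atTop 0] with y h2 hy0
    have hyk : 0 < y ^ κ := Real.rpow_pos_of_pos hy0 κ
    rw [Real.div_rpow (by positivity) hy0.le] at h2
    have h4 := mul_lt_mul_of_pos_right h2 hyk
    have h3 : (b * ((q * (y + 1) + 1) ^ κ / y ^ κ) + (2 * |K| + 1) / y ^ κ) * y ^ κ =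
        b * (q * (y + 1) + 1) ^ κ + (2 * |K| + 1) := by
      field_simp
    linarith
  have h3 := hy.eventually hfin
  have h4 := err A m₁ c C hC0 hm₁ hpe1
  filter_upwards [h1, h1', h3, h4, eventually_ge_atTop (Real.exp 2)] with t h1 h1' h3 h4 ht
  have ht0 : 0 < t := lt_of_lt_of_le (Real.exp_pos 2) ht
  have hL1 : 2 ≤ Real.log t := by
    rw [Real.le_log_iff_exp_le ht0]
    exact ht
  have ht1 : 1 ≤ t := (Real.one_le_exp (by norm_num : (0:ℝ) ≤ 2)).trans ht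
  obtain ⟨k0, hk0def⟩ : ∃ k0 : ℕ, k0 = ⌈Real.log t / Real.log 2⌉₊ := ⟨_, rfl⟩
  rw [← hk0def] at h1 h1'
  have hkge : Real.log t / Real.log 2 ≤ k0 := by rw [hk0def]; exact Nat.le_ceil _
  have hkle : (k0 : ℝ) < Real.log t / Real.log 2 + 1 := by
    rw [hk0def]
    exact Nat.ceil_lt_add_one (by positivity)
  have ht2 : t ≤ 2 ^ k0 := by
    rw [div_le_iff₀ hl2] at hkge
    have h5 : Real.log t ≤ Real.log (2 ^ k0) := by
      rw [Real.log_pow]
      exact hkge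
    exact (Real.log_le_log_iff ht0 (by positivity)).mp h5
  have ht3 : t + 1 ≤ 2 ^ (k0 + 1) := by
    rw [pow_succ]
    linarith
  have hk01 : 1 ≤ k0 := by
    have h5 : (0 : ℝ) < k0 := lt_of_lt_of_le (by positivity) hkge
    exact_mod_cast h5
  have ht4 : (2 : ℝ) ^ (k0 - 1) ≤ t := by
    have h5 : ((k0 - 1 : ℕ) : ℝ) ≤ Real.log t / Real.log 2 := by
      rw [Nat.cast_sub hk01]
      push_cast
      linarith
    rw [le_div_iff₀ hl2] at h5
    have h6 : Real.log (2 ^ (k0 - 1)) ≤ Real.log t := by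
      rw [Real.log_pow]
      exact h5
    exact (Real.log_le_log_iff (by positivity) ht0).mp h6
  -- the number of terms
  obtain ⟨N, hN⟩ : ∃ N : ℕ, N = Nt A t := ⟨_, rfl⟩
  have hN1 : (N : ℝ) ^ (A + 2) ≤ t := by rw [hN]; exact Nt_pow A ht0.le
  have hN2 : 2 ^ Jk q (k0 + 1) ≤ N := by
    rw [hN]
    apply le_Nt A ht0.le
    push_cast
    rw [← pow_mul]
    refine le_trans (pow_le_pow_right₀ (by norm_num) ?_) ht4
    rw [mul_comm]
    omega
  have hN3 : 1 ≤ N := le_trans Nat.one_le_two_pow hN2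
  -- the bound on the interval
  obtain ⟨B, hB⟩ : ∃ B : ℝ, B = b * (q * Real.log ((k0 + 1 : ℕ) : ℝ) + 1) ^ κ + 2 * |K| := ⟨_, rfl⟩
  have hδ1 : t ^ (-c) ≤ 1 := Real.rpow_le_one_of_one_le_of_nonpos ht1 (by linarith)
  have hδ0 : 0 < t ^ (-c) := Real.rpow_pos_of_pos ht0 _
  have hbound : ∀ y ∈ Set.uIoc t (t + t ^ (-c)), ‖part W N y‖ ≤ B := by
    intro y hy'
    rw [Set.uIoc_of_le (by linarith)] at hy'
    rw [Real.norm_eq_abs, hB]
    exact h1 y (by linarith [hy'.1]) (by linarith [hy'.2]) N hN2 (hN1.trans hy'.1.le)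
  have hint := intervalIntegral.norm_integral_le_of_norm_le_const hbound
  rw [Real.norm_eq_abs, add_sub_cancel_left, abs_of_pos hδ0] at hint
  have herr := hC N hN3 t (t + t ^ (-c)) ht0.le (by linarith)
  rw [← hN] at h4
  have htc : 0 < t ^ c := Real.rpow_pos_of_pos ht0 _
  have hprod1 : t ^ c * t ^ (-c) = 1 := by
    rw [← Real.rpow_add ht0, add_neg_cancel, Real.rpow_zero]
  have havg : |avg F c t| ≤ B + 1 := by
    unfold avg
    rw [abs_mul, abs_of_pos htc]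
    have h5 : |F (t + t ^ (-c)) - F t| ≤ B * t ^ (-c) + C * (N : ℝ) ^ (-(pe m₁ / 2)) := by
      have h6 : F (t + t ^ (-c)) - F t = (∫ y in t..(t + t ^ (-c)), part W N y) +
          (F (t + t ^ (-c)) - F t - ∫ y in t..(t + t ^ (-c)), part W N y) := by ring
      rw [h6]
      exact (abs_add_le _ _).trans (add_le_add hint herr)
    calc t ^ c * |F (t + t ^ (-c)) - F t|
        ≤ t ^ c * (B * t ^ (-c) + C * (N : ℝ) ^ (-(pe m₁ / 2))) :=
          mul_le_mul_of_nonneg_left h5 htc.le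
      _ = B * (t ^ c * t ^ (-c)) + t ^ c * (C * (N : ℝ) ^ (-(pe m₁ / 2))) := by ring
      _ ≤ B + 1 := by rw [hprod1, mul_one]; linarith
  refine havg.trans (le_trans ?_ h3)
  have hkpos : (0:ℝ) < ((k0 + 1 : ℕ) : ℝ) := by positivity
  have hlk : Real.log ((k0 + 1 : ℕ) : ℝ) ≤ Real.log (Real.log t) + 1 := by
    have h5 : ((k0 + 1 : ℕ) : ℝ) ≤ Real.exp 1 * Real.log t := by
      have h6 : Real.log t / Real.log 2 ≤ 1.5 * Real.log t := by
        rw [div_le_iff₀ hl2]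
        have := Real.log_two_gt_d9
        nlinarith
      have h7 := Real.exp_one_gt_d9
      push_cast
      nlinarith
    calc Real.log ((k0 + 1 : ℕ) : ℝ) ≤ Real.log (Real.exp 1 * Real.log t) :=
          Real.log_le_log hkpos h5
      _ = Real.log (Real.log t) + 1 := by
        rw [Real.log_mul (Real.exp_pos 1).ne' (by linarith), Real.log_exp]
        ring
  have h9 : (q * Real.log ((k0 + 1 : ℕ) : ℝ) + 1) ^ κ ≤
      (q * (Real.log (Real.log t) + 1) + 1) ^ κ := by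
    refine Real.rpow_le_rpow ?_ ?_ hκ.le
    · have := Real.log_natCast_nonneg (k0 + 1)
      positivity
    · have := mul_le_mul_of_nonneg_left hlk hq0.le
      linarith
  have h10 := mul_le_mul_of_nonneg_left h9 hb
  rw [hB]
  linarith

end Pool.Agent.H117.FP
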